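import Pool.Agent.helper77.BND.SpecD

/-!
# Project bnd (MP_376aaf_an), row MIN: the homeomorphism is minimal
-/

set_option autoImplicit false

open scoped Topology
open Finset

namespace Pool.Agent.BND

open Pool.Agent.CZ Pool.Agent.PV

theorem MIN_approx (hBLK : BLK_stmt) (hSTL : STL_stmt) (hLPX : LPX_stmt) (B : BS) (M : ℕ → ℕ → ℕ → ℕ)
    (hB : IsBS B M) (α : ↥(XS B) ≃ₜ ↥(XS B)) (h1 : IsAl B α) (h2 : IsAlI B α) (x y : ↥(XS B)) (m : ℕ) :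
    ∃ n : ℤ, ∀ k ≤ m, ∀ c, ‖((α ^ n) x).1 k c - y.1 k c‖ ≤ 1 / ((m : ℝ) + 1) := by
  obtain ⟨e, t, i, he, ht, hi, hy⟩ := (y.2 m).1
  obtain ⟨e', s', i', hcan, hi', hx, hblk⟩ := hBLK B M hB α h1 h2 x (m + 1)
  obtain ⟨t', ht', hmem, hdns⟩ := hB.dns m e' s' hcan.1 hcan.2.2 e t he ht
  obtain ⟨i₀, hi₀, hst⟩ := hSTL B M hB m e' s' hcan.1 hcan.2.2 (e, t') hmem
  have hlt : i₀ + i < (B.L (m + 1)).h e' := by
    have h3 : i₀ + (B.L m).h e ≤ (B.L (m + 1)).h e' := hi₀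
    omega
  refine ⟨((i₀ + i : ℕ) : ℤ) - i', ?_⟩
  have hz1 := hblk (i₀ + i) hlt
  have hz0 := (((α ^ (((i₀ + i : ℕ) : ℤ) - i')) x).2 m).2 e' s' (i₀ + i) hcan.1 hcan.2.2 hlt hz1
  have hz : ((α ^ (((i₀ + i : ℕ) : ℤ) - i')) x).1 m = emb (B.L m) e t' i := by
    rw [hz0]
    exact hst i hi
  generalize ((α ^ (((i₀ + i : ℕ) : ℤ) - i')) x) = z at hz
  intro k hk c
  obtain ⟨d, rfl⟩ := Nat.exists_eq_add_of_le hk
  have e1 := hLPX B M hB z k d e t' i he ht' hi hz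
  have e2 := hLPX B M hB y k d e t i he ht hi hy
  rw [e1, e2, norm_sub_rev]
  exact hdns k d rfl i hi c

theorem MIN (hBLK : BLK_stmt) (hSTL : STL_stmt) (hLPX : LPX_stmt) (hPMA : PMA_stmt) : MIN_stmt := by
  intro B M hB α h1 h2 x y
  choose n hn using fun m => MIN_approx hBLK hSTL hLPX B M hB α h1 h2 x y m
  have hlim : Filter.Tendsto (fun m : ℕ => (1 : ℝ) / ((m : ℝ) + 1)) Filter.atTop (𝓝 0) :=
    tendsto_one_div_add_atTop_nhds_zero_nat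
  refine mem_closure_of_tendsto (f := fun m : ℕ => (α ^ (n m)) x) (b := Filter.atTop) ?_
    (Filter.Eventually.of_forall (fun m => ⟨n m, rfl⟩))
  rw [tendsto_subtype_rng, tendsto_pi_nhds]
  intro k
  rw [tendsto_pi_nhds]
  intro c
  rw [tendsto_iff_norm_sub_tendsto_zero]
  refine squeeze_zero' (Filter.Eventually.of_forall (fun m => norm_nonneg _)) ?_ hlim
  filter_upwards [Filter.eventually_ge_atTop k] with m hm
  exact hn m k hm c

end Pool.Agent.BND
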