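import Pool.Agent.helper77.BND.SpecD

/-!
# Project bnd (MP_376aaf_an), row SBA: values taken at most once
-/

set_option autoImplicit false

open scoped Topology
open Finset

namespace Pool.Agent.BND

open Pool.Agent.CZ Pool.Agent.PV

/-- the parameters to be avoided -/
def SBA_bad (B : BS) (k : ℕ) : Set ℝ :=
  {s | ∃ (d a : ℕ) (t : ℝ) (j e i : ℕ), (a < (B.L (k + d)).N ∧ (t ∈ B.S (k + d) ∨ t = 0)) ∧
    (0 < s ∧ s < 1 ∧ (B.L k).n ≤ e ∧ e < (B.L k).N ∧ i < (B.L k).h e ∧ B.lp k d a t j = emb (B.L k) e s i)}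

theorem SBA_sub (hEMI : EMI_stmt) (B : BS) (M : ℕ → ℕ → ℕ → ℕ) (hB : IsBS B M) (k e i : ℕ) (y : Am) :
    Set.Subsingleton {s : ℝ | 0 < s ∧ s < 1 ∧ (B.L k).n ≤ e ∧ e < (B.L k).N ∧ i < (B.L k).h e ∧ y = emb (B.L k) e s i} := by
  rintro s ⟨h1, h2, h3, h4, h5, h6⟩ s' ⟨h1', h2', -, -, -, h6'⟩
  have h7 : emb (B.L k) e s i = emb (B.L k) e s' i := h6.symm.trans h6'
  rcases hEMI (B.L k) (hB.lv k) e s i e s' i h4 ⟨h1.le, h2.le⟩ h5 ⟨h4, Or.inr ⟨h1', h2'⟩, ⟨h1'.le, h2'.le⟩⟩ h5 h7 with h | h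
  · rcases h.2.2 with h8 | h8
    · omega
    · exact h8
  · obtain ⟨b, hb, -⟩ := h
    cases b with
    | false =>
      simp only [Bool.false_eq_true, if_false] at hb
      linarith
    | true =>
      simp only [if_true] at hb
      linarith

theorem SBA_count (hEMI : EMI_stmt) (B : BS) (M : ℕ → ℕ → ℕ → ℕ) (hB : IsBS B M) (k : ℕ) :
    (SBA_bad B k).Countable := by
  have hT : ∀ d : ℕ, Set.Countable {x : ℕ × ℝ | x.1 < (B.L (k + d)).N ∧ (x.2 ∈ B.S (k + d) ∨ x.2 = 0)} := by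
    intro d
    have h1 : (Set.Iio (B.L (k + d)).N ×ˢ (B.S (k + d) ∪ {0})).Finite :=
      (Set.finite_Iio _).prod ((hB.sfin (k + d)).union (Set.finite_singleton 0))
    refine (h1.subset ?_).countable
    rintro ⟨a, t⟩ ⟨h2, h3⟩
    exact ⟨h2, h3⟩
  have hsub : SBA_bad B k ⊆ ⋃ d : ℕ, ⋃ x ∈ {x : ℕ × ℝ | x.1 < (B.L (k + d)).N ∧ (x.2 ∈ B.S (k + d) ∨ x.2 = 0)},
      ⋃ j : ℕ, ⋃ e : ℕ, ⋃ i : ℕ, {s : ℝ | 0 < s ∧ s < 1 ∧ (B.L k).n ≤ e ∧ e < (B.L k).N ∧ i < (B.L k).h e ∧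
        B.lp k d x.1 x.2 j = emb (B.L k) e s i} := by
    rintro s ⟨d, a, t, j, e, i, h1, h2⟩
    refine Set.mem_iUnion.mpr ⟨d, Set.mem_iUnion₂.mpr ⟨(a, t), h1, ?_⟩⟩
    exact Set.mem_iUnion.mpr ⟨j, Set.mem_iUnion.mpr ⟨e, Set.mem_iUnion.mpr ⟨i, h2⟩⟩⟩
  refine Set.Countable.mono hsub ?_
  refine Set.countable_iUnion (fun d => (hT d).biUnion (fun x _ => ?_))
  refine Set.countable_iUnion (fun j => Set.countable_iUnion (fun e => Set.countable_iUnion (fun i => ?_)))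
  exact (SBA_sub hEMI B M hB k e i _).countable

theorem SBA_vtx (hEME : EME_stmt) (B : BS) (M : ℕ → ℕ → ℕ → ℕ) (hB : IsBS B M) (k d a : ℕ) (t : ℝ) (j : ℕ)
    (ha : a < (B.L (k + d)).n) : B.lp k d a t j = B.lp k d a 0 j := by
  cases d with
  | zero => exact (hEME (B.L k) (hB.lv k)).2.1 a t j ha
  | succ d =>
    change fw (B.L (k + d)).h (B.lp k d) (B.w (k + d) a t) j = fw (B.L (k + d)).h (B.lp k d) (B.w (k + d) a 0) j
    rw [hB.vtx (k + d) a t ha]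

theorem SBA_zero (hEME : EME_stmt) (B : BS) (M : ℕ → ℕ → ℕ → ℕ) (hB : IsBS B M) (k e i : ℕ) (s : ℝ)
    (h1 : (B.L k).n ≤ e) (h2 : e < (B.L k).N) (h3 : 0 < s) (h4 : s < 1) (h5 : s ∉ SBA_bad B k) (h6 : i < (B.L k).h e)
    (d a : ℕ) (t : ℝ) (ha : a < (B.L (k + d)).N) (hat : a < (B.L (k + d)).n ∨ t ∈ B.S (k + d)) (j : ℕ) :
    B.lp k d a t j ≠ emb (B.L k) e s i := by
  intro h
  rcases hat with h7 | h7
  · rw [SBA_vtx hEME B M hB k d a t j h7] at h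
    exact h5 ⟨d, a, 0, j, e, i, ⟨ha, Or.inr rfl⟩, h3, h4, h1, h2, h6, h⟩
  · exact h5 ⟨d, a, t, j, e, i, ⟨ha, Or.inl h7⟩, h3, h4, h1, h2, h6, h⟩

theorem SBA_listzero {w : List (ℕ × ℝ)} (σ : ℕ → ℝ → ℕ) (h : ∀ a ∈ w, σ a.1 a.2 = 0) :
    (w.map fun a => σ a.1 a.2).sum = 0 := by
  induction w with
  | nil => rfl
  | cons a w ih =>
    rw [List.map_cons, List.sum_cons, h a (List.mem_cons_self ..), ih (fun b hb => h b (List.mem_cons_of_mem _ hb))]

open Classical in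
theorem SBA_one (hWSM : WSM_stmt) (hEMI : EMI_stmt) (hEME : EME_stmt) (B : BS) (M : ℕ → ℕ → ℕ → ℕ) (hB : IsBS B M)
    (k e i : ℕ) (s : ℝ) (h1 : (B.L k).n ≤ e) (h2 : e < (B.L k).N) (h3 : 0 < s) (h4 : s < 1) (h5 : s ∉ SBA_bad B k)
    (h6 : i < (B.L k).h e) :
    ∀ (d a : ℕ) (t : ℝ), a < (B.L (k + d)).N → t ∈ U →
      ∑ j ∈ range ((B.L (k + d)).h a), (if B.lp k d a t j = emb (B.L k) e s i then 1 else 0) ≤ 1 := by
  intro d
  induction d with
  | zero =>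
    intro a t ha ht
    rw [← Finset.card_filter, Finset.card_le_one]
    have key : ∀ j, j < (B.L k).h a → B.lp k 0 a t j = emb (B.L k) e s i → j = i := by
      intro j hj hq
      rcases hEMI (B.L k) (hB.lv k) a t j e s i ha ht hj ⟨h2, Or.inr ⟨h3, h4⟩, ⟨h3.le, h4.le⟩⟩ h6 hq with h | h
      · exact h.2.1
      · obtain ⟨b, -, -, h7, -⟩ := h
        omega
    intro j hj j' hj'
    rw [Finset.mem_filter, Finset.mem_range] at hj hj'
    rw [key j hj.1 hj.2, key j' hj'.1 hj'.2]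
  | succ d ih =>
    intro a t ha ht
    have hW := hWSM (B.L (k + d)).h (B.w (k + d) a t) Am (B.lp k d) ℕ
      (fun y => if y = emb (B.L k) e s i then 1 else 0)
    have hh : hw (B.L (k + d)).h (B.w (k + d) a t) = (B.L (k + (d + 1))).h a := hB.htw (k + d) a t ha ht
    rw [hh] at hW
    have hL : ∑ j ∈ range ((B.L (k + (d + 1))).h a), (if B.lp k (d + 1) a t j = emb (B.L k) e s i then 1 else 0) =
        sw (fun e' s' => ∑ j ∈ range ((B.L (k + d)).h e'), (if B.lp k d e' s' j = emb (B.L k) e s i then 1 else 0))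
          (B.w (k + d) a t) := hW
    rw [hL]
    obtain ⟨P, x, Q, hPQ, hmem⟩ := hB.oneb (k + d) a t ha ht
    have hlett := hB.lett (k + d) a t ha ht
    rw [hPQ] at hlett ⊢
    unfold sw
    rw [List.map_append, List.map_cons, List.sum_append, List.sum_cons]
    have hz : ∀ y ∈ P ++ Q, y.1 < (B.L (k + d)).N →
        ∑ j ∈ range ((B.L (k + d)).h y.1), (if B.lp k d y.1 y.2 j = emb (B.L k) e s i then 1 else 0) = 0 := by
      intro y hy hyN
      refine Finset.sum_eq_zero (fun j _ => ?_)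
      rw [if_neg (SBA_zero hEME B M hB k e i s h1 h2 h3 h4 h5 h6 d y.1 y.2 hyN (hmem y hy) j)]
    have hP := SBA_listzero (w := P)
      (fun e' s' => ∑ j ∈ range ((B.L (k + d)).h e'), (if B.lp k d e' s' j = emb (B.L k) e s i then 1 else 0))
      (fun y hy => hz y (List.mem_append.mpr (Or.inl hy)) (hlett y (List.mem_append.mpr (Or.inl hy))).1)
    have hQ := SBA_listzero (w := Q)
      (fun e' s' => ∑ j ∈ range ((B.L (k + d)).h e'), (if B.lp k d e' s' j = emb (B.L k) e s i then 1 else 0))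
      (fun y hy => hz y (List.mem_append.mpr (Or.inr hy))
        (hlett y (List.mem_append.mpr (Or.inr (List.mem_cons_of_mem _ hy)))).1)
    rw [hP, hQ, zero_add, add_zero]
    have hx := hlett x (List.mem_append.mpr (Or.inr (List.mem_cons_self ..)))
    exact ih x.1 x.2 hx.1 hx.2

theorem SBA (hWSM : WSM_stmt) (hEMI : EMI_stmt) (hEME : EME_stmt) : SBA_stmt := by
  classical
  intro B M hB k
  refine ⟨SBA_bad B k, SBA_count hEMI B M hB k, ?_⟩
  intro e s i h1 h2 h3 h4 h5 h6 d a t ha ht j j' hj hj' hq hq'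
  have h7 := SBA_one hWSM hEMI hEME B M hB k e i s h1 h2 h3 h4 h5 h6 d a t ha ht
  rw [← Finset.card_filter, Finset.card_le_one] at h7
  exact h7 j (Finset.mem_filter.mpr ⟨Finset.mem_range.mpr hj, hq⟩) j' (Finset.mem_filter.mpr ⟨Finset.mem_range.mpr hj', hq'⟩)

end Pool.Agent.BND
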