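import Pool.Agent.helper77.BND.SpecD

/-!
# Project bnd (MP_376aaf_an), row SUC: one floor up, one floor down
-/

set_option autoImplicit false

open scoped Topology
open Finset

namespace Pool.Agent.BND

open Pool.Agent.CZ Pool.Agent.PV

/-- the three local moves inside a letter -/
theorem SUC_moves (hSTN : STN_stmt) (hEME : EME_stmt) (B : BS) (M : ℕ → ℕ → ℕ → ℕ) (hB : IsBS B M)
    (α : ↥(XS B) ≃ₜ ↥(XS B)) (h1 : IsAl B α) (h2 : IsAlI B α) (x : ↥(XS B)) (m : ℕ) :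
    ∃ (a : ℕ × ℝ) (j : ℕ), a.1 < (B.L m).N ∧ a.2 ∈ U ∧ j < (B.L m).h a.1 ∧ x.1 m = emb (B.L m) a.1 a.2 j ∧
      (j + 1 < (B.L m).h a.1 → (α x).1 m = emb (B.L m) a.1 a.2 (j + 1)) ∧
      (j + 1 = (B.L m).h a.1 → ∃ e' s', Can (B.L m) e' s' ∧ (α x).1 m = emb (B.L m) e' s' 0) ∧
      (0 < j → (α.symm x).1 m = emb (B.L m) a.1 a.2 (j - 1)) := by
  obtain ⟨e₁, s₁, i₁, he, hs, hi, hx⟩ := (x.2 (m + 1)).1
  have hA := h1 x m e₁ s₁ i₁ he hs hi hx
  have hI := h2 x m e₁ s₁ i₁ he hs hi hx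
  have hst := (x.2 m).2 e₁ s₁ i₁ he hs hi hx
  obtain ⟨a, j, i₀, -, haN, haU, hj, hij, hle, hk, -, -, -, -, hnext⟩ := hSTN B M hB m e₁ s₁ i₁ he hs hi
  refine ⟨a, j, haN, haU, hj, ?_, ?_, ?_, ?_⟩
  · rw [hst, hij]
    exact hk j hj
  · intro hj1
    rw [hA, if_pos (by omega), hij, Nat.add_assoc]
    exact hk (j + 1) hj1
  · intro hj1
    have key : ∃ a' : ℕ × ℝ, a'.1 < (B.L m).N ∧ a'.2 ∈ U ∧ (α x).1 m = emb (B.L m) a'.1 a'.2 0 := by
      by_cases hlt : i₁ + 1 < (B.L (m + 1)).h e₁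
      · obtain ⟨a', ha1, ha2, ha3⟩ := hnext (by omega)
        refine ⟨a', ha1, ha2, ?_⟩
        rw [hA, if_pos hlt, ← ha3]
        congr 1
        omega
      · refine ⟨(0, 0), lt_of_lt_of_le (hB.lv m).n0 (hB.lv m).nN, ⟨le_rfl, zero_le_one⟩, ?_⟩
        rw [hA, if_neg hlt]
        rfl
    obtain ⟨a', ha1, ha2, ha3⟩ := key
    obtain ⟨e', s', i', hc, -, he', hi0⟩ := (hEME (B.L m) (hB.lv m)).2.2.2 a'.1 a'.2 0 ha1 ha2 ((hB.lv m).pos _ ha1)
    rw [hi0 rfl] at he'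
    exact ⟨e', s', hc, ha3.trans he'⟩
  · intro hj0
    rw [hI]
    unfold BS.dn
    rw [if_neg (by omega)]
    have h3 : i₁ - 1 = i₀ + (j - 1) := by omega
    rw [h3]
    exact hk (j - 1) (by omega)

theorem SUC (hSTN : STN_stmt) (hEMI : EMI_stmt) (hEME : EME_stmt) (hFLS : FLS_stmt) (hFLV : FLV_stmt) : SUC_stmt := by
  intro B M hB α h1 h2 x m e s i hcan hi hx
  obtain ⟨a, j, haN, haU, hj, hxa, hup, htop, hdn⟩ := SUC_moves hSTN hEME B M hB α h1 h2 x m
  have hl := hB.lv m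
  obtain ⟨hE1, hE2, -, -⟩ := hEME (B.L m) hl
  rcases hEMI (B.L m) hl a.1 a.2 j e s i haN haU hj hcan hi (hxa.symm.trans hx) with h | h
  · obtain ⟨hae, hji, hor⟩ := h
    have hemb : ∀ k, emb (B.L m) a.1 a.2 k = emb (B.L m) e s k := by
      intro k
      rcases hor with h3 | h3
      · rw [hE2 a.1 a.2 k h3, hae, hE2 e s k (hae ▸ h3)]
      · rw [hae, h3]
    refine ⟨fun h4 => ?_, fun h4 => ?_, fun h4 => ?_⟩
    · rw [hup (by rw [hae, hji]; exact h4), hemb, hji]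
    · exact htop (by rw [hae, hji]; exact h4)
    · rw [hdn (by rw [hji]; exact h4), hemb, hji]
  · obtain ⟨b, hb, hna, hen, hfl⟩ := h
    have hsum := hl.ht a.1 haN b
    obtain ⟨hf0, hf1, hf2⟩ := hFLS (B.L m).h ((B.L m).W a.1 b)
    rw [hsum] at hf1 hf2
    have hemb : ∀ k, k < (B.L m).h a.1 → emb (B.L m) a.1 a.2 k =
        emb (B.L m) (fl (B.L m).h ((B.L m).W a.1 b) k).1 0 (fl (B.L m).h ((B.L m).W a.1 b) k).2 := by
      intro k hk
      rw [hb]
      exact hE1 a.1 k b haN hk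
    refine ⟨fun h4 => ?_, fun h4 => ?_, fun h4 => ?_⟩
    · have hj1 : j + 1 < (B.L m).h a.1 := by
        rcases Nat.lt_or_ge (j + 1) ((B.L m).h a.1) with h5 | h5
        · exact h5
        · exfalso
          have h6 := hf2 j (by omega)
          rw [hfl] at h6
          simp only at h6
          omega
      have h7 := (hf1 j hj1).1 (by rw [hfl]; exact h4)
      rw [hfl] at h7
      rw [hup hj1, hemb (j + 1) hj1, h7, hE2 e s (i + 1) hen]
    · rcases Nat.lt_or_ge (j + 1) ((B.L m).h a.1) with h5 | h5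
      · have h7 := (hf1 j h5).2.1 (by rw [hfl]; exact h4)
        have h8 := hup h5
        rw [hemb (j + 1) h5, h7] at h8
        have hv : (fl (B.L m).h ((B.L m).W a.1 b) (j + 1)).1 < (B.L m).n := by
          obtain ⟨-, P, Q, hPQ, -⟩ := hFLV (B.L m).h ((B.L m).W a.1 b) (j + 1) (by rw [hsum]; exact h5)
          have hm : (fl (B.L m).h ((B.L m).W a.1 b) (j + 1)).1 ∈ P ++ (fl (B.L m).h ((B.L m).W a.1 b) (j + 1)).1 :: Q :=
            List.mem_append.mpr (Or.inr (List.mem_cons_self ..))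
          rw [← hPQ] at hm
          exact hl.mem a.1 haN b _ hm
        exact ⟨_, 0, ⟨lt_of_lt_of_le hv hl.nN, Or.inl hv, ⟨le_rfl, zero_le_one⟩⟩, h8⟩
      · exact htop (by omega)
    · have hj0 : 0 < j := by
        rcases Nat.eq_zero_or_pos j with h5 | h5
        · exfalso
          rw [h5] at hfl
          rw [hfl] at hf0
          simp only at hf0
          omega
        · exact h5
      have hjj : j - 1 + 1 = j := by omega
      have h7 := (hf1 (j - 1) (by omega)).2.2.1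
      rw [hjj, hfl] at h7
      have h8 := h7 h4
      rw [hdn hj0, hemb (j - 1) (by omega), h8, hE2 e s (i - 1) hen]

end Pool.Agent.BND
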