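import Pool.Agent.helper53.BND.SpecT

/-!
# Project bnd (MP_376aaf_an), row TIJ: injectivity
-/

set_option autoImplicit false

open scoped Topology
open Finset Filter

namespace Pool.Agent.BND

open Pool.Agent.CZ Pool.Agent.PV Pool.Agent.PVH

theorem TIJ_one (hTSP : TSP_stmt) (hTLL : TLL_stmt) (B : BS) (M : ℕ → ℕ → ℕ → ℕ) (hB : IsBS B M)
    (x : ℕ → ℕ → ℕ → ↥(XS B)) (hx : IsPt B x) (r : ℕ → ℕ → ℝ) (hr : IsWt B M r) (k v₀ m : ℕ) (z : ℕ → ℕ)
    (hzr : r k v₀ = ∑ v ∈ range (B.L m).n, (z v : ℝ) * r m v) (F : Am → ℝ) (hF1 : ∀ y ∈ FS (B.L m), |F y| ≤ 1)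
    (hF2 : ∀ v s i, v < (B.L m).n → i < (B.L m).h v → F (emb (B.L m) v s i) = (z v : ℝ) / ((B.L m).h v : ℝ))
    (f : C(↥(XS B), ℝ)) (hf : ∀ y, f y = F (y.1 m)) (a : ℝ)
    (ha : Tendsto (fun m => B.lev x r m f) atTop (𝓝 a)) : |a - r k v₀| ≤ 2 * (1 / 2 : ℝ) ^ m := by
  have hav : B.av r m 0 F = r k v₀ := by
    rw [hzr]
    unfold BS.av BS.ls
    refine Finset.sum_congr rfl (fun v hv => ?_)
    have hvn : v < (B.L m).n := mem_range.mp hv
    have hpos : (0 : ℝ) < ((B.L m).h v : ℝ) := by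
      exact_mod_cast (hB.lv m).pos v (lt_of_lt_of_le hvn (hB.lv m).nN)
    have h1 : ∑ i ∈ range ((B.L (m + 0)).h v), F (B.lp m 0 v 0 i) =
        ∑ i ∈ range ((B.L m).h v), (z v : ℝ) / ((B.L m).h v : ℝ) := by
      refine Finset.sum_congr rfl (fun i hi => ?_)
      exact hF2 v 0 i hvn (mem_range.mp hi)
    rw [h1, Finset.sum_const, card_range, nsmul_eq_mul, mul_div_cancel₀ _ hpos.ne', mul_comm]
    rfl
  have hb : ∀ j, |B.lev x r (m + j) f - r k v₀| ≤ 2 * (1 / 2 : ℝ) ^ m := by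
    intro j
    rw [hTLL B M hB x hx r m F f hf j, ← hav]
    have h2 := hTSP B M hB r hr m F 1 one_pos hF1 0 j
    rw [Nat.zero_add, mul_one] at h2
    exact h2
  have ht : Tendsto (fun j => |B.lev x r (m + j) f - r k v₀|) atTop (𝓝 |a - r k v₀|) := by
    have h0 : Tendsto (fun j : ℕ => m + j) atTop atTop :=
      tendsto_atTop_mono (fun j => Nat.le_add_left j m) tendsto_id
    have h3 : Tendsto (fun j : ℕ => B.lev x r (m + j) f) atTop (𝓝 a) := ha.comp h0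
    exact (h3.sub_const (r k v₀)).abs
  exact le_of_tendsto ht (Eventually.of_forall hb)

theorem TIJ (hTSP : TSP_stmt) (hTLL : TLL_stmt) (hTGF : TGF_stmt) (hTIZ : TIZ_stmt) : TIJ_stmt := by
  intro B M hB x hx r r' hr hr' hlim k v₀ hv₀
  have key : ∀ d : ℕ, |r k v₀ - r' k v₀| ≤ 4 * (1 / 2 : ℝ) ^ (k + d) := by
    intro d
    obtain ⟨z, hz, hzr⟩ := hTIZ B M hB k v₀ hv₀ d
    obtain ⟨F, hFc, hF1, hF2⟩ := hTGF (B.L (k + d)) (hB.lv (k + d))
      (fun v => (z v : ℝ) / ((B.L (k + d)).h v : ℝ)) 1 (fun v hv => by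
        have hpos : (0 : ℝ) < ((B.L (k + d)).h v : ℝ) := by
          exact_mod_cast (hB.lv (k + d)).pos v (lt_of_lt_of_le hv (hB.lv (k + d)).nN)
        change |(z v : ℝ) / ((B.L (k + d)).h v : ℝ)| ≤ 1
        rw [abs_of_nonneg (by positivity), div_le_one hpos]
        exact_mod_cast hz v hv)
    let f : C(↥(XS B), ℝ) := ⟨fun y => F (y.1 (k + d)),
      hFc.comp ((continuous_apply (k + d)).comp continuous_subtype_val)⟩
    obtain ⟨a, ha, ha'⟩ := hlim f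
    have h1 := TIJ_one hTSP hTLL B M hB x hx r hr k v₀ (k + d) z (hzr r hr) F hF1 hF2 f (fun _ => rfl) a ha
    have h2 := TIJ_one hTSP hTLL B M hB x hx r' hr' k v₀ (k + d) z (hzr r' hr') F hF1 hF2 f (fun _ => rfl) a ha'
    have h3 : r k v₀ - r' k v₀ = (a - r' k v₀) - (a - r k v₀) := by ring
    rw [h3]
    have h4 := abs_sub (a - r' k v₀) (a - r k v₀)
    linarith
  have hlim0 : Tendsto (fun d : ℕ => 4 * (1 / 2 : ℝ) ^ (k + d)) atTop (𝓝 (4 * 0)) := by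
    refine Tendsto.const_mul 4 ?_
    have h5 : Tendsto (fun n : ℕ => (1 / 2 : ℝ) ^ n) atTop (𝓝 0) :=
      tendsto_pow_atTop_nhds_zero_of_lt_one (by norm_num) (by norm_num)
    have h0 : Tendsto (fun j : ℕ => k + j) atTop atTop :=
      tendsto_atTop_mono (fun j => Nat.le_add_left j k) tendsto_id
    exact h5.comp h0
  rw [mul_zero] at hlim0
  have h6 : |r k v₀ - r' k v₀| ≤ 0 := ge_of_tendsto hlim0 (Eventually.of_forall key)
  exact sub_eq_zero.mp (abs_nonpos_iff.mp h6)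

end Pool.Agent.BND
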