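import Pool.Agent.helper53.BND.SpecT

/-!
# Project bnd (MP_376aaf_an), row TSU: surjectivity
-/

set_option autoImplicit false

open scoped Topology
open Finset Filter

namespace Pool.Agent.BND

open Pool.Agent.CZ Pool.Agent.PV Pool.Agent.PVH

/-- a positive unital linear functional is monotone up to constants -/
theorem TSU_mono {X : Type} [TopologicalSpace X] (φ : C(X, ℝ) →ₗ[ℝ] ℝ) (hpos : ∀ f : C(X, ℝ), (∀ y, 0 ≤ f y) → 0 ≤ φ f)
    (hone : φ 1 = 1) (f g : C(X, ℝ)) (ε : ℝ) (h : ∀ y, |f y - g y| ≤ ε) : φ f ≤ φ g + ε := by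
  have h1 : 0 ≤ φ (ε • (1 : C(X, ℝ)) - (f - g)) := by
    refine hpos _ (fun y => ?_)
    have h2 := (abs_le.mp (h y)).2
    change 0 ≤ ε * 1 - (f y - g y)
    linarith
  rw [map_sub, map_smul, map_sub, hone, smul_eq_mul, mul_one] at h1
  linarith

theorem TSU (hTCL : TCL_stmt) (hTDN : TDN_stmt) (hTLL : TLL_stmt) (hTMM : TMM_stmt) : TSU_stmt := by
  intro E _ _ _ K H _ ρ g hKD B M th H' hB hTh α hα hαI x hx Φ haff hpos hone hlim ψ
  refine hTMM E K hKD.compact hKD.convex (C(↥(XS B), ℝ)) Φ ψ.φ haff (fun f => ?_)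
  have hcK : CompactSpace K := isCompact_iff_compactSpace.mp hKD.compact
  have hnK : Nonempty K := hKD.nonempty.to_subtype
  obtain ⟨t₀, -, ht₀⟩ := isCompact_univ.exists_isMaxOn Set.univ_nonempty (Φ f).continuous.continuousOn
  have hmax : ∀ t : K, Φ f t ≤ Φ f t₀ := fun t => ht₀ (Set.mem_univ t)
  refine ⟨t₀, le_of_forall_pos_le_add (fun δ hδ => ?_)⟩
  set ε : ℝ := δ / 3 with hε
  have hε0 : 0 < ε := by rw [hε]; linarith
  obtain ⟨k, F, f', C, hC, -, hFC, hf', hff'⟩ := hTDN B M hB f ε hε0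
  obtain ⟨m₀, hm₀⟩ := hlim f' ε hε0
  have h1 : ψ.φ f ≤ ψ.φ f' + ε := TSU_mono ψ.φ ψ.nonneg ψ.one f f' ε hff'
  have h2 : ∀ t : K, Φ f' t ≤ Φ f t + ε := by
    intro t
    let ev : C(↥(XS B), ℝ) →ₗ[ℝ] ℝ :=
      { toFun := fun h => Φ h t
        map_add' := fun a b => by
          rw [map_add]
          rfl
        map_smul' := fun c a => by
          rw [map_smul]
          rfl }
    exact TSU_mono ev (fun h hh => hpos h hh t) (by
      change Φ 1 t = 1
      rw [hone]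
      rfl) f' f ε (fun y => by rw [abs_sub_comm]; exact hff' y)
  have h3 : ψ.φ f' ≤ Φ f t₀ + 2 * ε := by
    refine hTCL E K H ρ g hKD B M th H' hB hTh α hα hαI ψ k F f' C (Φ f t₀ + 2 * ε) hC hFC hf' (fun d₀ => ?_)
    refine ⟨max d₀ m₀, le_max_left _ _, fun t => ?_⟩
    rw [← hTLL B M hB x hx (fun m v => ρ (th m v) t) k F f' hf' (max d₀ m₀)]
    have h4 := hm₀ (k + max d₀ m₀) (by have := le_max_right d₀ m₀; omega) t
    have h5 := (abs_le.mp h4).2
    have h6 := h2 t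
    have h7 := hmax t
    linarith
  have h8 : δ = 3 * ε := by rw [hε]; ring
  rw [h8]
  linarith

end Pool.Agent.BND
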