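import Pool.Agent.helper77.BND.SpecD

/-!
# Project bnd (MP_376aaf_an), row XIN: the space is infinite
-/

set_option autoImplicit false

open scoped Topology
open Finset

namespace Pool.Agent.BND

open Pool.Agent.CZ Pool.Agent.PV

theorem XIN (hXSU : XSU_stmt) (hEMI : EMI_stmt) : XIN_stmt := by
  intro B M hB
  by_contra hinf
  rw [not_infinite_iff_finite] at hinf
  set k := Nat.card ↥(XS B) with hk
  have hl := hB.lv k
  have h0N : 0 < (B.L k).N := lt_of_lt_of_le hl.n0 hl.nN
  have hU0 : (0 : ℝ) ∈ U := ⟨le_rfl, zero_le_one⟩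
  have hbig := hB.big k 0 h0N
  have hmem : ∀ i : Fin (k + 1), emb (B.L k) 0 0 i ∈ FS (B.L k) := fun i =>
    ⟨0, 0, i, h0N, hU0, by have := i.2; omega, rfl⟩
  choose x hx using fun i : Fin (k + 1) => hXSU B M hB k _ (hmem i)
  have hinj : Function.Injective x := by
    intro i j hij
    have h1 : emb (B.L k) 0 0 i = emb (B.L k) 0 0 j := by
      rw [← hx i, ← hx j, hij]
    rcases hEMI (B.L k) hl 0 0 i 0 0 j h0N hU0 (by have := i.2; omega) ⟨h0N, Or.inl hl.n0, hU0⟩
      (by have := j.2; omega) h1 with h | h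
    · exact Fin.ext h.2.1
    · obtain ⟨b, -, h2, -⟩ := h
      have := hl.n0
      omega
  have h2 := Nat.card_le_card_of_injective x hinj
  rw [Nat.card_eq_fintype_card, Fintype.card_fin] at h2
  omega

end Pool.Agent.BND
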